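import Pool.Agent.Lib.MP_df084a_an.Defs

/-!
# The construction

`K` is the suspension of a path `v_1, ..., v_{2n-1}` (poles `B`, `B'`).  Its maximal packing is a
closed Steiner chain of `2n` circles between the circles of `B` and `B'`, one of which is
the exterior of the unit disc.  The competing packing `P` is a Pappus type chain between two
tangent circles.
-/

open scoped ComplexConjugate

namespace Pool.Agent.Lib.MP_df084a_an

/-! ## The complex: suspension of a path with `m` vertices -/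

/-- Vertices of the suspension of the path with `m` vertices. -/
abbrev Vtx (m : ℕ) : Type := Bool ⊕ Fin m

/-- `near c k v`: the vertex `v` belongs to the triangle spanned by the pole `c` and the path
vertices `k`, `k+1`. -/
def near {m : ℕ} (c : Bool) (k : ℕ) : Vtx m → Prop
  | Sum.inl d => d = c
  | Sum.inr i => i.val = k ∨ i.val = k + 1

lemma card_near {m : ℕ} (c : Bool) (k : ℕ) (s : Finset (Vtx m)) (h : ∀ v ∈ s, near c k v) :
    s.card ≤ 3 := by
  classical
  have hinj : Set.InjOn (fun v : Vtx m => match v with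
      | Sum.inl _ => (0 : ℕ)
      | Sum.inr i => i.val + 1) s := by
    intro u hu v hv huv
    have h1 := h u hu
    have h2 := h v hv
    rcases u with u | u <;> rcases v with v | v <;> simp [near] at h1 h2 huv ⊢
    · rw [h1, h2]
    · exact Fin.ext huv
  have hmaps : Set.MapsTo (fun v : Vtx m => match v with
      | Sum.inl _ => (0 : ℕ)
      | Sum.inr i => i.val + 1) s (({0, k + 1, k + 2} : Finset ℕ) : Set ℕ) := by
    intro u hu
    have h1 := h u hu
    rcases u with u | u <;> simp [near] at h1 ⊢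
    omega
  calc s.card ≤ ({0, k + 1, k + 2} : Finset ℕ).card :=
        Finset.card_le_card_of_injOn _ hmaps hinj
    _ ≤ 3 := Finset.card_le_three

/-- The suspension of the path with `m` vertices. -/
def susp (m : ℕ) : Complex2 (Vtx m) where
  simplices := {s | s.Nonempty ∧ ∃ c k, ∀ v ∈ s, near c k v}
  nonempty_of_mem := fun s hs => hs.1
  mem_of_subset := by
    rintro s ⟨-, c, k, h⟩ t hts ht
    exact ⟨ht, c, k, fun v hv => h v (hts hv)⟩
  singleton_mem := by
    intro v
    refine ⟨Finset.singleton_nonempty v, ?_⟩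
    rcases v with c | i
    · exact ⟨c, 0, by simp [near]⟩
    · exact ⟨true, i, by simp [near]⟩
  card_le_three := by
    rintro s ⟨-, c, k, h⟩
    exact card_near c k s h

lemma susp_mem {m : ℕ} (s : Finset (Vtx m)) :
    s ∈ (susp m).simplices ↔ s.Nonempty ∧ ∃ c k, ∀ v ∈ s, near c k v := Iff.rfl

/-! ### The realization is a disc -/

lemma floor_aux (m : ℕ) (hm : 2 ≤ m) (s Y : ℝ) (hY : 0 ≤ Y) (hY' : Y ≤ (m - 1) * s) :
    ∃ k : ℕ, k + 1 < m ∧ k * s ≤ Y ∧ Y ≤ (k + 1) * s := by
  induction m, hm using Nat.le_induction with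
  | base => exact ⟨0, by norm_num, by simpa using hY, by norm_num at hY' ⊢; exact hY'⟩
  | succ n hn ih =>
    by_cases h : Y ≤ ((n : ℝ) - 1) * s
    · obtain ⟨k, hk, h1, h2⟩ := ih h
      exact ⟨k, by omega, h1, h2⟩
    · refine ⟨n - 1, by omega, ?_, ?_⟩
      · push Not at h
        rw [Nat.cast_sub (by omega)]
        simpa using h.le
      · rw [Nat.cast_sub (by omega)]
        push_cast at hY' ⊢
        linarith

/-- A function on `Fin m` given by a function on `ℕ` vanishing off `{k, k+1}`. -/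
lemma sum_two {m k : ℕ} (hk : k + 1 < m) (f : ℕ → ℝ) (hf : ∀ j, j < m → j ≠ k → j ≠ k + 1 → f j = 0) :
    ∑ i : Fin m, f i = f k + f (k + 1) := by
  rw [Fin.sum_univ_eq_sum_range]
  rw [← Finset.sum_subset (s₁ := {k, k + 1})]
  · rw [Finset.sum_pair (by omega)]
  · intro x hx
    simp at hx ⊢
    omega
  · intro x hx hx'
    simp at hx hx'
    exact hf x hx (by tauto) (by tauto)

/-- The planar region used to draw the suspension. -/
def region (m : ℕ) : Set ℂ := {z | 0 ≤ z.im ∧ z.im ≤ (m - 1) * (1 - |z.re|)}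

/-- Drawing map. -/
noncomputable def draw (m : ℕ) (x : Vtx m → ℝ) : ℂ :=
  ⟨x (Sum.inl true) - x (Sum.inl false), ∑ i : Fin m, (i : ℝ) * x (Sum.inr i)⟩

/-- Inverse of the drawing map. -/
noncomputable def undraw (m : ℕ) (z : ℂ) : Vtx m → ℝ
  | Sum.inl c => if c then max z.re 0 else max (-z.re) 0
  | Sum.inr i => max 0 ((1 - |z.re|) - |z.im - i * (1 - |z.re|)|)


lemma draw_re (m : ℕ) (x : Vtx m → ℝ) : (draw m x).re = x (Sum.inl true) - x (Sum.inl false) := rfl

lemma draw_im (m : ℕ) (x : Vtx m → ℝ) :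
    (draw m x).im = ∑ i : Fin m, (i : ℝ) * x (Sum.inr i) := rfl

/-- Structure of points in the realization. -/
lemma realization_structure {m : ℕ} (hm : 2 ≤ m) {x : Vtx m → ℝ} (hx : x ∈ (susp m).realization) :
    ∃ c : Bool, ∃ k : ℕ, k + 1 < m ∧ x (Sum.inl (!c)) = 0 ∧
      ∀ i : Fin m, i.val ≠ k → i.val ≠ k + 1 → x (Sum.inr i) = 0 := by
  obtain ⟨-, -, s, ⟨-, c, k, hk⟩, hs⟩ := hx
  have hc : x (Sum.inl (!c)) = 0 := by
    by_contra h
    have := hk _ (hs _ h)
    simp [near] at this
  have hi : ∀ i : Fin m, i.val ≠ k → i.val ≠ k + 1 → x (Sum.inr i) = 0 := by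
    intro i h1 h2
    by_contra h
    have := hk _ (hs _ h)
    simp [near] at this
    tauto
  by_cases hkm : k + 1 < m
  · exact ⟨c, k, hkm, hc, hi⟩
  · refine ⟨c, m - 2, by omega, hc, ?_⟩
    intro i h1 h2
    apply hi
    · have := i.2
      omega
    · have := i.2
      omega

lemma realization_calc {m : ℕ} {x : Vtx m → ℝ} (hx : x ∈ (susp m).realization)
    {c : Bool} {k : ℕ} (hk : k + 1 < m) (hc : x (Sum.inl (!c)) = 0)
    (hi : ∀ i : Fin m, i.val ≠ k → i.val ≠ k + 1 → x (Sum.inr i) = 0) :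
    x (Sum.inr ⟨k, by omega⟩) + x (Sum.inr ⟨k + 1, hk⟩) = 1 - |(draw m x).re| ∧
    k * x (Sum.inr ⟨k, by omega⟩) + (k + 1) * x (Sum.inr ⟨k + 1, hk⟩) = (draw m x).im := by
  obtain ⟨h0, h1, -⟩ := hx
  have e1 : ∑ i : Fin m, x (Sum.inr i) =
      x (Sum.inr ⟨k, by omega⟩) + x (Sum.inr ⟨k + 1, hk⟩) := by
    have := sum_two hk (fun j => if h : j < m then x (Sum.inr ⟨j, h⟩) else 0) (by
      intro j hj h1 h2
      simp only [hj, dif_pos]
      exact hi ⟨j, hj⟩ h1 h2)
    simp only [hk, show k < m by omega, dif_pos, Fin.is_lt, Fin.eta] at this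
    exact this
  have e2 : ∑ i : Fin m, (i : ℝ) * x (Sum.inr i) =
      k * x (Sum.inr ⟨k, by omega⟩) + (k + 1) * x (Sum.inr ⟨k + 1, hk⟩) := by
    have := sum_two hk (fun j => (j : ℝ) * if h : j < m then x (Sum.inr ⟨j, h⟩) else 0) (by
      intro j hj h1 h2
      simp only [hj, dif_pos]
      rw [hi ⟨j, hj⟩ h1 h2, mul_zero])
    simp only [hk, show k < m by omega, dif_pos, Fin.is_lt, Fin.eta] at this
    rw [this]
    push_cast
    ring
  rw [Fintype.sum_sum_type, Fintype.sum_bool, e1] at h1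
  refine ⟨?_, ?_⟩
  · rw [draw_re]
    have ht := h0 (Sum.inl true)
    have hf := h0 (Sum.inl false)
    rcases c with - | -
    · simp at hc
      rw [hc] at h1 ⊢
      rw [zero_sub, abs_neg, abs_of_nonneg hf]
      linarith
    · simp at hc
      rw [hc] at h1 ⊢
      rw [sub_zero, abs_of_nonneg ht]
      linarith
  · rw [draw_im, e2]

lemma draw_mem {m : ℕ} (hm : 2 ≤ m) {x : Vtx m → ℝ} (hx : x ∈ (susp m).realization) :
    draw m x ∈ region m := by
  obtain ⟨c, k, hk, hc, hi⟩ := realization_structure hm hx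
  obtain ⟨h1, h2⟩ := realization_calc hx hk hc hi
  have hk0 := hx.1 (Sum.inr ⟨k, by omega⟩)
  have hk1 := hx.1 (Sum.inr ⟨k + 1, hk⟩)
  have hkm : (k : ℝ) + 1 ≤ m - 1 := by
    have : ((k + 2 : ℕ) : ℝ) ≤ m := by exact_mod_cast (by omega : k + 2 ≤ m)
    push_cast at this
    linarith
  have hk' : (0 : ℝ) ≤ k := Nat.cast_nonneg k
  constructor
  · rw [← h2]; positivity
  · rw [← h1, ← h2]
    nlinarith

lemma undraw_draw {m : ℕ} (hm : 2 ≤ m) {x : Vtx m → ℝ} (hx : x ∈ (susp m).realization) :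
    undraw m (draw m x) = x := by
  obtain ⟨c, k, hk, hc, hi⟩ := realization_structure hm hx
  obtain ⟨h1, h2⟩ := realization_calc hx hk hc hi
  have hk0 := hx.1 (Sum.inr ⟨k, by omega⟩)
  have hk1 := hx.1 (Sum.inr ⟨k + 1, hk⟩)
  have ht := hx.1 (Sum.inl true)
  have hf := hx.1 (Sum.inl false)
  funext v
  rcases v with d | i
  · show (if d then max (draw m x).re 0 else max (-(draw m x).re) 0) = _
    rw [draw_re]
    rcases c with - | - <;> rcases d with - | - <;> simp at hc ⊢ <;> rw [hc] <;> simp [ht, hf]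
  · show max 0 ((1 - |(draw m x).re|) - |(draw m x).im - i * (1 - |(draw m x).re|)|) = _
    rw [← h1, ← h2]
    by_cases h : i.val = k
    · have hik : i = ⟨k, by omega⟩ := Fin.ext h
      rw [hik]
      simp only
      rw [show (k : ℝ) * x (Sum.inr ⟨k, by omega⟩) + (k + 1) * x (Sum.inr ⟨k + 1, hk⟩) -
        k * (x (Sum.inr ⟨k, by omega⟩) + x (Sum.inr ⟨k + 1, hk⟩)) = x (Sum.inr ⟨k + 1, hk⟩) by ring,
        abs_of_nonneg hk1]
      rw [add_sub_cancel_right]
      exact max_eq_right hk0
    by_cases h' : i.val = k + 1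
    · have hik : i = ⟨k + 1, hk⟩ := Fin.ext h'
      rw [hik]
      simp only
      push_cast
      rw [show (k : ℝ) * x (Sum.inr ⟨k, by omega⟩) + (k + 1) * x (Sum.inr ⟨k + 1, hk⟩) -
        (k + 1) * (x (Sum.inr ⟨k, by omega⟩) + x (Sum.inr ⟨k + 1, hk⟩)) =
        - x (Sum.inr ⟨k, by omega⟩) by ring, abs_neg, abs_of_nonneg hk0]
      rw [add_sub_cancel_left]
      exact max_eq_right hk1
    · rw [hi i h h']
      apply max_eq_left
      set A := x (Sum.inr ⟨k, by omega⟩)
      set B := x (Sum.inr ⟨k + 1, hk⟩)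
      rcases lt_or_gt_of_ne h with h3 | h3
      · have : ((i : ℕ) : ℝ) + 1 ≤ k := by exact_mod_cast h3
        have h4 : A + B ≤ (k : ℝ) * A + (k + 1) * B - i * (A + B) := by nlinarith
        have := le_abs_self ((k : ℝ) * A + (k + 1) * B - i * (A + B))
        linarith
      · have : (k : ℝ) + 2 ≤ (i : ℕ) := by
          have : k + 2 ≤ i.val := by omega
          exact_mod_cast this
        have h4 : A + B ≤ -((k : ℝ) * A + (k + 1) * B - i * (A + B)) := by nlinarith
        have := neg_le_abs ((k : ℝ) * A + (k + 1) * B - i * (A + B))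
        linarith

/-- values of `undraw` on path vertices. -/
lemma undraw_inr {m : ℕ} {z : ℂ} {k : ℕ} {s : ℝ} (hs : s = 1 - |z.re|) (hs0 : 0 ≤ s)
    (h1 : k * s ≤ z.im) (h2 : z.im ≤ (k + 1) * s) (i : Fin m) :
    undraw m z (Sum.inr i) = if i.val = k then (k + 1) * s - z.im else
      if i.val = k + 1 then z.im - k * s else 0 := by
  show max 0 ((1 - |z.re|) - |z.im - i * (1 - |z.re|)|) = _
  rw [← hs]
  split_ifs with h h'
  · rw [h, abs_of_nonneg (by linarith)]
    rw [max_eq_right (by linarith)]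
    ring
  · rw [h']
    push_cast
    rw [abs_of_nonpos (by linarith)]
    rw [max_eq_right (by linarith)]
    ring
  · apply max_eq_left
    rcases lt_or_gt_of_ne h with h3 | h3
    · have : ((i : ℕ) : ℝ) + 1 ≤ k := by exact_mod_cast h3
      have h4 : s ≤ z.im - i * s := by nlinarith
      have := le_abs_self (z.im - i * s)
      linarith
    · have : (k : ℝ) + 2 ≤ (i : ℕ) := by
        have : k + 2 ≤ i.val := by omega
        exact_mod_cast this
      have h4 : s ≤ -(z.im - i * s) := by nlinarith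
      have := neg_le_abs (z.im - i * s)
      linarith

lemma region_structure {m : ℕ} (hm : 2 ≤ m) {z : ℂ} (hz : z ∈ region m) :
    0 ≤ 1 - |z.re| ∧ ∃ k : ℕ, k + 1 < m ∧ k * (1 - |z.re|) ≤ z.im ∧ z.im ≤ (k + 1) * (1 - |z.re|) := by
  obtain ⟨h1, h2⟩ := hz
  have hm' : (1 : ℝ) ≤ m - 1 := by
    have : (2 : ℝ) ≤ m := by exact_mod_cast hm
    linarith
  have hs : 0 ≤ 1 - |z.re| := by
    by_contra h
    push Not at h
    nlinarith
  exact ⟨hs, floor_aux m hm _ _ h1 h2⟩

lemma undraw_sums {m : ℕ} (hm : 2 ≤ m) {z : ℂ} (hz : z ∈ region m) :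
    ∑ i : Fin m, undraw m z (Sum.inr i) = 1 - |z.re| ∧
    ∑ i : Fin m, (i : ℝ) * undraw m z (Sum.inr i) = z.im := by
  obtain ⟨hs, k, hk, h1, h2⟩ := region_structure hm hz
  set s := 1 - |z.re| with hs'
  have hu := fun i : Fin m => undraw_inr hs' hs h1 h2 i
  constructor
  · have := sum_two hk (fun j => if j = k then (k + 1) * s - z.im else
      if j = k + 1 then z.im - k * s else 0) (by
        intro j _ h3 h4
        simp [h3, h4])
    simp only [hu]
    rw [this]
    simp
    ring
  · have := sum_two hk (fun j => (j : ℝ) * if j = k then (k + 1) * s - z.im else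
      if j = k + 1 then z.im - k * s else 0) (by
        intro j _ h3 h4
        simp [h3, h4])
    simp only [hu]
    rw [this]
    simp
    ring

lemma draw_undraw {m : ℕ} (hm : 2 ≤ m) {z : ℂ} (hz : z ∈ region m) :
    draw m (undraw m z) = z := by
  apply Complex.ext
  · rw [draw_re]
    show max z.re 0 - max (-z.re) 0 = z.re
    rcases le_total 0 z.re with h | h
    · rw [max_eq_left h, max_eq_right (by linarith)]; ring
    · rw [max_eq_right h, max_eq_left (by linarith)]; ring
  · rw [draw_im]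
    exact (undraw_sums hm hz).2

lemma undraw_mem {m : ℕ} (hm : 2 ≤ m) {z : ℂ} (hz : z ∈ region m) :
    undraw m z ∈ (susp m).realization := by
  refine ⟨?_, ?_, ?_⟩
  · rintro (c | i)
    · show 0 ≤ (if c then max z.re 0 else max (-z.re) 0)
      split_ifs <;> exact le_max_right _ _
    · exact le_max_left _ _
  · rw [Fintype.sum_sum_type, Fintype.sum_bool, (undraw_sums hm hz).1]
    show max z.re 0 + max (-z.re) 0 + _ = 1
    rcases le_total 0 z.re with h | h
    · rw [max_eq_left h, max_eq_right (by linarith), abs_of_nonneg h]; ring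
    · rw [max_eq_right h, max_eq_left (by linarith), abs_of_nonpos h]; ring
  · obtain ⟨hs, k, hk, h1, h2⟩ := region_structure hm hz
    have hu := fun i : Fin m => undraw_inr rfl hs h1 h2 i
    classical
    refine ⟨Finset.univ.filter (near (if 0 ≤ z.re then true else false) k), ⟨⟨Sum.inr ⟨k, by omega⟩, by
      simp [near]⟩, _, k, fun v hv => (Finset.mem_filter.1 hv).2⟩, ?_⟩
    intro v hv
    rw [Finset.mem_filter]
    refine ⟨Finset.mem_univ _, ?_⟩
    rcases v with c | i
    · show c = _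
      change (if c then max z.re 0 else max (-z.re) 0) ≠ 0 at hv
      split_ifs with h
      · by_contra h'
        simp at h'
        subst h'
        apply hv
        simp [h]
      · by_contra h'
        simp at h'
        subst h'
        apply hv
        simp
        linarith
    · show i.val = k ∨ i.val = k + 1
      by_contra h
      push Not at h
      apply hv
      rw [hu]
      simp [h.1, h.2]

lemma continuous_draw (m : ℕ) : Continuous (draw m) := by
  have : draw m = fun x => ((x (Sum.inl true) - x (Sum.inl false) : ℝ) : ℂ) +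
      ((∑ i : Fin m, (i : ℝ) * x (Sum.inr i) : ℝ) : ℂ) * Complex.I := by
    funext x
    apply Complex.ext <;> simp [draw]
  rw [this]
  fun_prop

lemma continuous_undraw (m : ℕ) : Continuous (undraw m) := by
  apply continuous_pi
  rintro (c | i)
  · show Continuous fun z : ℂ => (if c then max z.re 0 else max (-z.re) 0)
    split_ifs <;> fun_prop
  · show Continuous fun z : ℂ => max 0 ((1 - |z.re|) - |z.im - i * (1 - |z.re|)|)
    fun_prop

/-- The realization is homeomorphic to the planar region. -/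
noncomputable def homeoRegion {m : ℕ} (hm : 2 ≤ m) : (susp m).realization ≃ₜ region m where
  toFun x := ⟨draw m x.1, draw_mem hm x.2⟩
  invFun z := ⟨undraw m z.1, undraw_mem hm z.2⟩
  left_inv x := Subtype.ext (undraw_draw hm x.2)
  right_inv z := Subtype.ext (draw_undraw hm z.2)
  continuous_toFun := Continuous.subtype_mk ((continuous_draw m).comp continuous_subtype_val) _
  continuous_invFun := Continuous.subtype_mk ((continuous_undraw m).comp continuous_subtype_val) _

lemma convex_region (m : ℕ) (hm : 2 ≤ m) : Convex ℝ (region m) := by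
  have hm' : (0 : ℝ) ≤ m - 1 := by
    have : (2 : ℝ) ≤ m := by exact_mod_cast hm
    linarith
  intro x hx y hy a b ha hb hab
  obtain ⟨hx1, hx2⟩ := hx
  obtain ⟨hy1, hy2⟩ := hy
  constructor
  · simp
    positivity
  · simp
    have h1 : |a * x.re + b * y.re| ≤ a * |x.re| + b * |y.re| := by
      calc |a * x.re + b * y.re| ≤ |a * x.re| + |b * y.re| := abs_add_le _ _
        _ = _ := by rw [abs_mul, abs_mul, abs_of_nonneg ha, abs_of_nonneg hb]
    have h2 : ((m : ℝ) - 1) * |a * x.re + b * y.re| ≤ (m - 1) * (a * |x.re| + b * |y.re|) :=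
      mul_le_mul_of_nonneg_left h1 hm'
    have h3 := mul_le_mul_of_nonneg_left hx2 ha
    have h4 := mul_le_mul_of_nonneg_left hy2 hb
    have h5 : ((m : ℝ) - 1) * (a + b) = m - 1 := by rw [hab, mul_one]
    nlinarith

lemma isClosed_region (m : ℕ) : IsClosed (region m) := by
  apply IsClosed.inter
  · exact isClosed_le continuous_const Complex.continuous_im
  · exact isClosed_le Complex.continuous_im (by fun_prop)

lemma isBounded_region (m : ℕ) (hm : 2 ≤ m) : Bornology.IsBounded (region m) := by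
  rw [isBounded_iff_forall_norm_le]
  refine ⟨1 + m, ?_⟩
  intro z hz
  obtain ⟨hs, -⟩ := region_structure hm hz
  obtain ⟨h1, h2⟩ := hz
  have hm' : (0 : ℝ) ≤ m - 1 := by
    have : (2 : ℝ) ≤ m := by exact_mod_cast hm
    linarith
  have h3 : |z.im| ≤ m := by
    rw [abs_of_nonneg h1]
    nlinarith [abs_nonneg z.re]
  calc ‖z‖ ≤ |z.re| + |z.im| := Complex.norm_le_abs_re_add_abs_im z
    _ ≤ 1 + m := by linarith

lemma interior_region (m : ℕ) (hm : 2 ≤ m) : (interior (region m)).Nonempty := by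
  have hm' : (1 : ℝ) ≤ m - 1 := by
    have : (2 : ℝ) ≤ m := by exact_mod_cast hm
    linarith
  refine ⟨⟨0, 1/2⟩, ?_⟩
  rw [mem_interior]
  refine ⟨{z : ℂ | 0 < z.im ∧ z.im < (m - 1) * (1 - |z.re|)}, ?_, ?_, ?_⟩
  · intro z hz
    exact ⟨hz.1.le, hz.2.le⟩
  · apply IsOpen.inter
    · exact isOpen_lt continuous_const Complex.continuous_im
    · exact isOpen_lt Complex.continuous_im (by fun_prop)
  · constructor
    · norm_num
    · simp
      linarith

lemma susp_isClosedDisc (m : ℕ) (hm : 2 ≤ m) : (susp m).IsClosedDisc := by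
  obtain ⟨h, -, h2, -⟩ := exists_homeomorph_image_interior_closure_frontier_eq_unitBall
    (convex_region m hm) (interior_region m hm) (isBounded_region m hm)
  rw [(isClosed_region m).closure_eq] at h2
  refine ⟨(homeoRegion hm).trans ?_⟩
  exact (h.image (region m)).trans (Homeomorph.setCongr h2)


/-! ### Orientation and boundary -/

/-- The orientation rule: pole `true` is on the right, pole `false` on the left, and the path runs
downwards. -/
def core {m : ℕ} (c : Bool) (i j : Fin m) : Prop :=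
  (c = true ∧ j.val = i.val + 1) ∨ (c = false ∧ i.val = j.val + 1)

/-- Positively oriented triangles of the suspension. -/
def spos {m : ℕ} : Vtx m → Vtx m → Vtx m → Prop
  | Sum.inl c, Sum.inr i, Sum.inr j => core c i j
  | Sum.inr i, Sum.inr j, Sum.inl c => core c i j
  | Sum.inr j, Sum.inl c, Sum.inr i => core c i j
  | _, _, _ => False

lemma triangle_mem {m : ℕ} (u v w : Vtx m) :
    {u, v, w} ∈ (susp m).simplices ↔ ∃ c k, near c k u ∧ near c k v ∧ near c k w := by
  rw [susp_mem]
  constructor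
  · rintro ⟨-, c, k, h⟩
    exact ⟨c, k, h u (by simp), h v (by simp), h w (by simp)⟩
  · rintro ⟨c, k, h1, h2, h3⟩
    refine ⟨⟨u, by simp⟩, c, k, ?_⟩
    intro x hx
    simp at hx
    rcases hx with rfl | rfl | rfl <;> assumption

lemma edge_mem {m : ℕ} (u v : Vtx m) :
    {u, v} ∈ (susp m).simplices ↔ ∃ c k, near c k u ∧ near c k v := by
  rw [susp_mem]
  constructor
  · rintro ⟨-, c, k, h⟩
    exact ⟨c, k, h u (by simp), h v (by simp)⟩
  · rintro ⟨c, k, h1, h2⟩
    refine ⟨⟨u, by simp⟩, c, k, ?_⟩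
    intro x hx
    simp at hx
    rcases hx with rfl | rfl <;> assumption

lemma core_total {m : ℕ} {c : Bool} {i j : Fin m} {k : ℕ} (hij : i ≠ j)
    (hi : i.val = k ∨ i.val = k + 1) (hj : j.val = k ∨ j.val = k + 1) : core c i j ∨ core c j i := by
  have : i.val ≠ j.val := fun h => hij (Fin.ext h)
  unfold core
  rcases c with - | - <;> simp <;> omega

lemma core_asymm {m : ℕ} {c : Bool} {i j : Fin m} (h : core c i j) (h' : core c j i) : False := by
  unfold core at h h'
  rcases c with - | - <;> simp at h h' <;> omega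

lemma core_inj_left {m : ℕ} {c : Bool} {i i' j : Fin m} (h : core c i j) (h' : core c i' j) :
    i = i' := by
  unfold core at h h'
  apply Fin.ext
  rcases c with - | - <;> simp at h h' <;> omega

lemma core_inj_right {m : ℕ} {c : Bool} {i j j' : Fin m} (h : core c i j) (h' : core c i j') :
    j = j' := by
  unfold core at h h'
  apply Fin.ext
  rcases c with - | - <;> simp at h h' <;> omega

lemma core_inj_pole {m : ℕ} {c c' : Bool} {i j : Fin m} (h : core c i j) (h' : core c' i j) :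
    c = c' := by
  unfold core at h h'
  rcases c with - | - <;> rcases c' with - | - <;> simp at h h' ⊢ <;> omega

lemma core_near {m : ℕ} {c : Bool} {i j : Fin m} (h : core c i j) :
    i ≠ j ∧ ∃ k : ℕ, (i.val = k ∨ i.val = k + 1) ∧ (j.val = k ∨ j.val = k + 1) := by
  unfold core at h
  refine ⟨?_, ?_⟩
  · rintro rfl
    omega
  · rcases h with ⟨-, h⟩ | ⟨-, h⟩
    · exact ⟨i.val, by omega, by omega⟩
    · exact ⟨j.val, by omega, by omega⟩

/-- The orientation of the suspension. -/
def sor (m : ℕ) : (susp m).Orientation where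
  pos := spos
  is_triangle := by
    intro u v w h
    rw [triangle_mem]
    rcases u with u | u <;> rcases v with v | v <;> rcases w with w | w <;> try exact h.elim
    · obtain ⟨h1, k, h2, h3⟩ := core_near (show core u v w from h)
      exact ⟨by simp, by simpa using h1, by simp, u, k, rfl, h2, h3⟩
    · obtain ⟨h1, k, h2, h3⟩ := core_near (show core v w u from h)
      exact ⟨by simp, by simp, by simpa using h1, v, k, h3, rfl, h2⟩
    · obtain ⟨h1, k, h2, h3⟩ := core_near (show core w u v from h)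
      exact ⟨by simpa using h1, by simp, by simp, w, k, h2, h3, rfl⟩
  cyclic := by
    intro u v w h
    rcases u with u | u <;> rcases v with v | v <;> rcases w with w | w <;> exact h
  total := by
    intro u v w h1 h2 h3 h
    rw [triangle_mem] at h
    obtain ⟨c, k, hu, hv, hw⟩ := h
    rcases u with u | u <;> rcases v with v | v <;> rcases w with w | w
    · change u = c at hu; change v = c at hv; subst hu; subst hv; exact absurd rfl h1
    · change u = c at hu; change v = c at hv; subst hu; subst hv; exact absurd rfl h1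
    · change u = c at hu; change w = c at hw; subst hu; subst hw; exact absurd rfl h3
    · have := core_total (c := u) (show v ≠ w from fun h => h2 (by rw [h])) hv hw
      exact this
    · change w = c at hw; change v = c at hv; subst hw; subst hv; exact absurd rfl h2
    · have := core_total (c := v) (show w ≠ u from fun h => h3 (by rw [h])) hw hu
      exact this
    · have := core_total (c := w) (show u ≠ v from fun h => h1 (by rw [h])) hu hv
      exact this
    · exfalso
      have h1' : u.val ≠ v.val := fun h => h1 (by rw [Fin.ext h])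
      have h2' : v.val ≠ w.val := fun h => h2 (by rw [Fin.ext h])
      have h3' : w.val ≠ u.val := fun h => h3 (by rw [Fin.ext h])
      change u.val = k ∨ u.val = k + 1 at hu
      change v.val = k ∨ v.val = k + 1 at hv
      change w.val = k ∨ w.val = k + 1 at hw
      omega
  asymm := by
    intro u v w h h'
    rcases u with u | u <;> rcases v with v | v <;> rcases w with w | w <;> try exact h.elim
    · exact core_asymm (show core u v w from h) h'
    · exact core_asymm (show core v w u from h) h'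
    · exact core_asymm (show core w u v from h) h'
  coherent := by
    intro u v w w' h h'
    rcases u with u | u <;> rcases v with v | v <;> rcases w with w | w <;> rcases w' with w' | w' <;>
      first
        | exact h.elim
        | exact h'.elim
        | skip
    · rw [core_inj_right (show core u v w from h) h']
    · rw [core_inj_left (show core v w u from h) h']
    · rw [core_inj_pole (show core w u v from h) h']

/-- Boundary characterisation: helper. -/
lemma not_boundary {m : ℕ} (i : Fin m) (h0 : 0 < i.val) (h1 : i.val + 1 < m) :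
    ¬ (susp m).IsBoundary (Sum.inr i) := by
  rintro ⟨u, hu, he, w, ⟨-, -, -⟩, huniq⟩
  rw [edge_mem] at he
  obtain ⟨c, k, hcu, hci⟩ := he
  change i.val = k ∨ i.val = k + 1 at hci
  rcases u with d | j
  · have e1 := huniq (Sum.inr ⟨i.val - 1, by omega⟩) ⟨by simp, by
      simp [Fin.ext_iff]; omega, by
      rw [triangle_mem]
      exact ⟨d, i.val - 1, rfl, show i.val = i.val - 1 ∨ i.val = i.val - 1 + 1 by omega,
        Or.inl rfl⟩⟩
    have e2 := huniq (Sum.inr ⟨i.val + 1, by omega⟩) ⟨by simp, by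
      simp [Fin.ext_iff], by
      rw [triangle_mem]
      exact ⟨d, i.val, rfl, Or.inl rfl, Or.inr rfl⟩⟩
    rw [← e2] at e1
    simp at e1
  · change j.val = k ∨ j.val = k + 1 at hcu
    have e := fun d : Bool => huniq (Sum.inl d) ⟨by simp, by simp, by
      rw [triangle_mem]
      exact ⟨d, k, hcu, hci, rfl⟩⟩
    have := (e true).trans (e false).symm
    simp at this

lemma boundary_pole {m : ℕ} (hm : 2 ≤ m) (c : Bool) : (susp m).IsBoundary (Sum.inl c) := by
  refine ⟨Sum.inr ⟨0, by omega⟩, by simp, ?_, Sum.inr ⟨1, by omega⟩, ⟨?_, by simp, ?_⟩, ?_⟩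
  · rw [edge_mem]
    exact ⟨c, 0, Or.inl rfl, rfl⟩
  · simp
  · rw [triangle_mem]
    exact ⟨c, 0, Or.inl rfl, rfl, Or.inr rfl⟩
  · rintro w ⟨h1, h2, h3⟩
    rw [triangle_mem] at h3
    obtain ⟨d, k, ha, hb, hc⟩ := h3
    change c = d at hb
    subst hb
    change 0 = k ∨ 0 = k + 1 at ha
    rcases w with w | w
    · change w = c at hc
      subst hc
      exact absurd rfl h2
    · change w.val = k ∨ w.val = k + 1 at hc
      have : w.val ≠ 0 := fun h => h1 (by congr 1; exact Fin.ext h)
      congr 1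
      apply Fin.ext
      simp
      omega

lemma boundary_top {m : ℕ} (hm : 2 ≤ m) : (susp m).IsBoundary (Sum.inr ⟨0, by omega⟩) := by
  refine ⟨Sum.inl true, by simp, ?_, Sum.inr ⟨1, by omega⟩, ⟨by simp, by simp, ?_⟩, ?_⟩
  · rw [edge_mem]
    exact ⟨true, 0, rfl, Or.inl rfl⟩
  · rw [triangle_mem]
    exact ⟨true, 0, rfl, Or.inl rfl, Or.inr rfl⟩
  · rintro w ⟨h1, h2, h3⟩
    rw [triangle_mem] at h3
    obtain ⟨d, k, hb, ha, hc⟩ := h3
    change true = d at hb
    subst hb
    change 0 = k ∨ 0 = k + 1 at ha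
    rcases w with w | w
    · change w = true at hc
      subst hc
      exact absurd rfl h1
    · change w.val = k ∨ w.val = k + 1 at hc
      have : w.val ≠ 0 := fun h => h2 (by congr 1; exact Fin.ext h)
      congr 1
      apply Fin.ext
      simp
      omega

lemma boundary_bot {m : ℕ} (hm : 2 ≤ m) : (susp m).IsBoundary (Sum.inr ⟨m - 1, by omega⟩) := by
  refine ⟨Sum.inl true, by simp, ?_, Sum.inr ⟨m - 2, by omega⟩, ⟨by simp, by
    simp [Fin.ext_iff]; omega, ?_⟩, ?_⟩
  · rw [edge_mem]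
    exact ⟨true, m - 1, rfl, Or.inl rfl⟩
  · rw [triangle_mem]
    exact ⟨true, m - 2, rfl, show m - 1 = _ ∨ m - 1 = _ by omega, Or.inl rfl⟩
  · rintro w ⟨h1, h2, h3⟩
    rw [triangle_mem] at h3
    obtain ⟨d, k, hb, ha, hc⟩ := h3
    change true = d at hb
    subst hb
    change m - 1 = k ∨ m - 1 = k + 1 at ha
    rcases w with w | w
    · change w = true at hc
      subst hc
      exact absurd rfl h1
    · change w.val = k ∨ w.val = k + 1 at hc
      have : w.val ≠ m - 1 := fun h => h2 (by congr 1; exact Fin.ext h)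
      congr 1
      apply Fin.ext
      simp
      have := w.2
      omega


/-! ## Chains of circles between two symmetric circles -/

/-- Two circles of radius `R` centred at `a + b i` (pole `true`) and `-a + b i` (pole `false`), and a
chain of circles centred on the imaginary axis, the `k`-th one having the segment from `p (k+1) i`
to `p k i` as a diameter. -/
noncomputable def chain (m : ℕ) (a b R : ℝ) (p : ℕ → ℝ) (hR : 0 < R)
    (hp : ∀ k, k < m → p (k + 1) < p k) : Circles (Vtx m) where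
  center
    | Sum.inl c => if c then ⟨a, b⟩ else ⟨-a, b⟩
    | Sum.inr i => ⟨0, (p i + p (i + 1)) / 2⟩
  radius
    | Sum.inl _ => R
    | Sum.inr i => (p i - p (i + 1)) / 2
  radius_pos := by
    rintro (c | i)
    · exact hR
    · have := hp i i.2
      show 0 < (p i - p (i + 1)) / 2
      linarith

lemma p_anti {m : ℕ} {p : ℕ → ℝ} (hp : ∀ k, k < m → p (k + 1) < p k) {i j : ℕ} (hij : i ≤ j)
    (hj : j ≤ m) : p j ≤ p i := by
  induction j, hij using Nat.le_induction with
  | base => exact le_rfl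
  | succ n hn ih => exact (hp n (by omega)).le.trans (ih (by omega))

section Chain

variable {m : ℕ} {a b R : ℝ} {p : ℕ → ℝ} (hR : 0 < R) (hp : ∀ k, k < m → p (k + 1) < p k)

lemma chain_radius_inl (c : Bool) : (chain m a b R p hR hp).radius (Sum.inl c) = R := rfl

lemma chain_radius_inr (i : Fin m) :
    (chain m a b R p hR hp).radius (Sum.inr i) = (p i - p (i + 1)) / 2 := rfl

lemma chain_center_inr (i : Fin m) :
    (chain m a b R p hR hp).center (Sum.inr i) = ⟨0, (p i + p (i + 1)) / 2⟩ := rfl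

lemma chain_center_inl_im (c : Bool) : ((chain m a b R p hR hp).center (Sum.inl c)).im = b := by
  rcases c with - | - <;> simp [chain]

lemma chain_center_inl_re_sq (c : Bool) :
    ((chain m a b R p hR hp).center (Sum.inl c)).re ^ 2 = a ^ 2 := by
  rcases c with - | - <;> simp [chain]

lemma chain_norm_inl (c : Bool) :
    ‖(chain m a b R p hR hp).center (Sum.inl c)‖ = √(a ^ 2 + b ^ 2) := by
  rw [Complex.norm_eq_sqrt_sq_add_sq, chain_center_inl_im, chain_center_inl_re_sq]

lemma chain_norm_inr (i : Fin m) :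
    ‖(chain m a b R p hR hp).center (Sum.inr i)‖ = |(p i + p (i + 1)) / 2| := by
  rw [Complex.norm_eq_sqrt_sq_add_sq, chain_center_inr]
  simp [Real.sqrt_sq_eq_abs]

variable (htan : ∀ k, k < m → a ^ 2 + ((p k + p (k + 1)) / 2 - b) ^ 2 =
  (R + (p k - p (k + 1)) / 2) ^ 2)

include htan in
lemma chain_dist_inl_inr (c : Bool) (i : Fin m) :
    dist ((chain m a b R p hR hp).center (Sum.inl c)) ((chain m a b R p hR hp).center (Sum.inr i)) =
      R + (p i - p (i + 1)) / 2 := by
  rw [Complex.dist_eq_re_im, chain_center_inl_im, chain_center_inr]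
  have h1 := htan i i.2
  have h2 : (((chain m a b R p hR hp).center (Sum.inl c)).re - 0) ^ 2 = a ^ 2 := by
    rw [sub_zero, chain_center_inl_re_sq]
  have h3 : (b - (p i + p (i + 1)) / 2) ^ 2 = ((p i + p (i + 1)) / 2 - b) ^ 2 := by ring
  have h4 := hp i i.2
  simp only
  rw [h2, h3, h1, Real.sqrt_sq (by linarith)]

lemma chain_dist_inr_inr (i j : Fin m) :
    dist ((chain m a b R p hR hp).center (Sum.inr i)) ((chain m a b R p hR hp).center (Sum.inr j)) =
      |(p i + p (i + 1)) / 2 - (p j + p (j + 1)) / 2| := by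
  rw [Complex.dist_eq_re_im, chain_center_inr, chain_center_inr]
  simp [Real.sqrt_sq_eq_abs]

lemma chain_dist_inr_lt (i j : Fin m) (hij : i.val < j.val) :
    (p i - p (i + 1)) / 2 + (p j - p (j + 1)) / 2 ≤
    dist ((chain m a b R p hR hp).center (Sum.inr i))
      ((chain m a b R p hR hp).center (Sum.inr j)) := by
  rw [chain_dist_inr_inr]
  have h1 : p j ≤ p (i + 1) := p_anti hp (by omega) (by omega)
  have h2 := le_abs_self ((p i + p (i + 1)) / 2 - (p j + p (j + 1)) / 2)
  linarith

lemma chain_dist_inl_inl (ha : 0 < a) :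
    dist ((chain m a b R p hR hp).center (Sum.inl true))
      ((chain m a b R p hR hp).center (Sum.inl false)) = 2 * a := by
  rw [Complex.dist_eq_re_im]
  simp only [chain, if_true]
  simp
  rw [show (a + a) ^ 2 = (2 * a) ^ 2 by ring, Real.sqrt_sq (by linarith)]

include htan in
lemma chain_univalent (ha : 0 < a) (haR : R ≤ a) :
    (chain m a b R p hR hp).IsUnivalent := by
  intro u v huv
  apply Metric.ball_disjoint_ball
  rcases u with c | i <;> rcases v with d | j
  · rw [chain_radius_inl, chain_radius_inl]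
    rcases c with - | - <;> rcases d with - | -
    · exact absurd rfl huv
    · rw [dist_comm, chain_dist_inl_inl hR hp ha]; linarith
    · rw [chain_dist_inl_inl hR hp ha]; linarith
    · exact absurd rfl huv
  · rw [chain_dist_inl_inr hR hp htan, chain_radius_inl, chain_radius_inr]
  · rw [dist_comm, chain_dist_inl_inr hR hp htan, chain_radius_inl, chain_radius_inr, add_comm]
  · rw [chain_radius_inr, chain_radius_inr]
    have hij : i.val ≠ j.val := fun h => huv (by rw [Fin.ext h])
    rcases lt_or_gt_of_ne hij with h | h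
    · exact chain_dist_inr_lt hR hp i j h
    · rw [dist_comm, add_comm]
      exact chain_dist_inr_lt hR hp j i h

include hp in
lemma chain_center_drop (i j : Fin m) (hij : j.val = i.val + 1) :
    (p j + p (j + 1)) / 2 < (p i + p (i + 1)) / 2 := by
  have h1 := hp i i.2
  have h2 := hp j j.2
  rw [hij] at h2 ⊢
  linarith

lemma chain_core {c : Bool} {i j : Fin m} (ha : 0 < a) (h : core c i j) :
    0 < (conj ((chain m a b R p hR hp).center (Sum.inr i) -
      (chain m a b R p hR hp).center (Sum.inl c)) *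
      ((chain m a b R p hR hp).center (Sum.inr j) -
      (chain m a b R p hR hp).center (Sum.inl c))).im := by
  rcases h with ⟨rfl, h⟩ | ⟨rfl, h⟩
  · have := chain_center_drop hp i j h
    simp [chain, Complex.mul_im]
    nlinarith
  · have := chain_center_drop hp j i h
    simp [chain, Complex.mul_im]
    nlinarith

lemma cross_cyclic (x y z : ℂ) :
    (conj (y - x) * (z - x)).im = (conj (z - y) * (x - y)).im := by
  simp [Complex.mul_im]
  ring

include htan in
lemma chain_isCirclePacking (ha : 0 < a) :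
    IsCirclePacking (susp m) (sor m) (chain m a b R p hR hp) := by
  constructor
  · intro u v huv he
    rw [edge_mem] at he
    obtain ⟨c, k, h1, h2⟩ := he
    rcases u with d | i <;> rcases v with e | j
    · change d = c at h1; change e = c at h2; subst h1; subst h2; exact absurd rfl huv
    · rw [chain_dist_inl_inr hR hp htan, chain_radius_inl, chain_radius_inr]
    · rw [dist_comm, chain_dist_inl_inr hR hp htan, chain_radius_inl, chain_radius_inr, add_comm]
    · change i.val = k ∨ i.val = k + 1 at h1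
      change j.val = k ∨ j.val = k + 1 at h2
      have hij : i.val ≠ j.val := fun h => huv (by rw [Fin.ext h])
      rw [chain_radius_inr, chain_radius_inr, chain_dist_inr_inr]
      have hi := hp i i.2
      have hj := hp j j.2
      rcases lt_or_gt_of_ne hij with h | h
      · have : j.val = i.val + 1 := by omega
        rw [this] at hj ⊢
        rw [abs_of_nonneg (by linarith)]
        ring
      · have : i.val = j.val + 1 := by omega
        rw [this] at hi ⊢
        rw [abs_of_nonpos (by linarith)]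
        ring
  · intro u v w h
    change spos u v w at h
    rcases u with u | u <;> rcases v with v | v <;> rcases w with w | w <;> try exact h.elim
    · exact chain_core hR hp ha (show core u v w from h)
    · have := chain_core (b := b) hR hp ha (show core v w u from h)
      rw [cross_cyclic]
      exact this
    · have := chain_core (b := b) hR hp ha (show core w u v from h)
      rw [cross_cyclic, cross_cyclic]
      exact this

end Chain


/-! ## The maximal packing -/

section Maximal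

/-- The angle `π / (4 n)`. -/
noncomputable def ang (n : ℕ) : ℝ := Real.pi / (4 * n)

/-- End points of the chain circles of the maximal packing. -/
noncomputable def pM (n k : ℕ) : ℝ :=
  Real.tan (ang n) * (Real.cos ((2 * k + 1) * ang n) / Real.sin ((2 * k + 1) * ang n))

lemma ang_pos {n : ℕ} (hn : 1 ≤ n) : 0 < ang n := by
  have : (0 : ℝ) < n := by exact_mod_cast hn
  unfold ang
  positivity

lemma ang_mul {n : ℕ} (hn : 1 ≤ n) : 4 * n * ang n = Real.pi := by
  have : (0 : ℝ) < n := by exact_mod_cast hn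
  unfold ang
  field_simp

lemma ang_le {n : ℕ} (hn : 2 ≤ n) : ang n ≤ Real.pi / 8 := by
  have h : (2 : ℝ) ≤ n := by exact_mod_cast hn
  unfold ang
  apply div_le_div_of_nonneg_left Real.pi_pos.le (by norm_num)
  linarith

lemma cos_ang_pos {n : ℕ} (hn : 2 ≤ n) : 0 < Real.cos (ang n) := by
  apply Real.cos_pos_of_mem_Ioo
  constructor
  · linarith [ang_pos (show 1 ≤ n by omega), Real.pi_pos]
  · linarith [ang_le hn, Real.pi_pos]

lemma sin_ang_pos {n : ℕ} (hn : 2 ≤ n) : 0 < Real.sin (ang n) := by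
  apply Real.sin_pos_of_pos_of_lt_pi
  · exact ang_pos (by omega)
  · linarith [ang_le hn, Real.pi_pos]

lemma tan_ang_pos {n : ℕ} (hn : 2 ≤ n) : 0 < Real.tan (ang n) := by
  rw [Real.tan_eq_sin_div_cos]
  exact div_pos (sin_ang_pos hn) (cos_ang_pos hn)

lemma cos_two_ang_pos {n : ℕ} (hn : 2 ≤ n) : 0 < Real.cos (2 * ang n) := by
  apply Real.cos_pos_of_mem_Ioo
  constructor
  · linarith [ang_pos (show 1 ≤ n by omega), Real.pi_pos]
  · linarith [ang_le hn, Real.pi_pos]

lemma tan_sq_lt {n : ℕ} (hn : 2 ≤ n) : Real.tan (ang n) ^ 2 < 1 := by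
  have h1 := cos_two_ang_pos hn
  have hc := cos_ang_pos hn
  rw [Real.tan_eq_sin_div_cos, div_pow, div_lt_one (by positivity)]
  rw [Real.cos_two_mul'] at h1
  linarith

lemma sin_k_pos {n k : ℕ} (hn : 2 ≤ n) (hk : k ≤ 2 * n - 1) :
    0 < Real.sin ((2 * k + 1) * ang n) := by
  have h0 := ang_pos (show 1 ≤ n by omega)
  have h1 := ang_mul (show 1 ≤ n by omega)
  apply Real.sin_pos_of_pos_of_lt_pi
  · positivity
  · rw [← h1]
    apply mul_lt_mul_of_pos_right _ h0
    have : k + 1 ≤ 2 * n := by omega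
    have : (k : ℝ) + 1 ≤ 2 * n := by exact_mod_cast this
    linarith

lemma pM_zero {n : ℕ} (hn : 2 ≤ n) : pM n 0 = 1 := by
  have hs := sin_ang_pos hn
  have hc := cos_ang_pos hn
  unfold pM
  rw [Real.tan_eq_sin_div_cos]
  simp
  field_simp

lemma pM_last {n : ℕ} (hn : 2 ≤ n) : pM n (2 * n - 1) = -1 := by
  have hs := sin_ang_pos hn
  have hc := cos_ang_pos hn
  unfold pM
  have h : (2 * ((2 * n - 1 : ℕ) : ℝ) + 1) * ang n = Real.pi - ang n := by
    rw [← ang_mul (show 1 ≤ n by omega), Nat.cast_sub (by omega)]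
    push_cast
    ring
  rw [h, Real.cos_pi_sub, Real.sin_pi_sub, Real.tan_eq_sin_div_cos]
  field_simp

lemma pM_mid {n : ℕ} (hn : 2 ≤ n) : pM n (n - 1) + pM n (n - 1 + 1) = 0 := by
  have h : (2 * ((n - 1 + 1 : ℕ) : ℝ) + 1) * ang n =
      Real.pi - (2 * ((n - 1 : ℕ) : ℝ) + 1) * ang n := by
    rw [← ang_mul (show 1 ≤ n by omega)]
    push_cast
    rw [Nat.cast_sub (by omega)]
    push_cast
    ring
  unfold pM
  rw [h, Real.cos_pi_sub, Real.sin_pi_sub]
  ring

lemma pM_sub {n k : ℕ} (hn : 2 ≤ n) (hk : k < 2 * n - 1) :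
    pM n k - pM n (k + 1) = 2 * Real.sin (ang n) ^ 2 /
      (Real.sin ((2 * k + 1) * ang n) * Real.sin ((2 * k + 3) * ang n)) := by
  have hs := sin_ang_pos hn
  have hc := cos_ang_pos hn
  have h1 := sin_k_pos hn (show k ≤ 2 * n - 1 by omega)
  have h2 := sin_k_pos hn (show k + 1 ≤ 2 * n - 1 by omega)
  unfold pM
  have e : (2 * ((k + 1 : ℕ) : ℝ) + 1) * ang n = (2 * k + 3) * ang n := by push_cast; ring
  rw [e] at h2 ⊢
  have key : Real.cos ((2 * k + 1) * ang n) * Real.sin ((2 * k + 3) * ang n) -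
      Real.cos ((2 * k + 3) * ang n) * Real.sin ((2 * k + 1) * ang n) =
      2 * Real.sin (ang n) * Real.cos (ang n) := by
    rw [← Real.sin_two_mul, show 2 * ang n = (2 * k + 3) * ang n - (2 * k + 1) * ang n by ring,
      Real.sin_sub]
    ring
  rw [Real.tan_eq_sin_div_cos]
  generalize Real.sin ((2 * k + 1) * ang n) = s1 at *
  generalize Real.sin ((2 * k + 3) * ang n) = s2 at *
  generalize Real.cos ((2 * k + 1) * ang n) = c1 at *
  generalize Real.cos ((2 * k + 3) * ang n) = c2 at *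
  field_simp
  linear_combination key

lemma pM_anti {n : ℕ} (hn : 2 ≤ n) : ∀ k, k < 2 * n - 1 → pM n (k + 1) < pM n k := by
  intro k hk
  have hs := sin_ang_pos hn
  have h1 := sin_k_pos hn (show k ≤ 2 * n - 1 by omega)
  have h2 := sin_k_pos hn (show k + 1 ≤ 2 * n - 1 by omega)
  have e : (2 * ((k + 1 : ℕ) : ℝ) + 1) * ang n = (2 * k + 3) * ang n := by push_cast; ring
  rw [e] at h2
  have h3 := pM_sub hn hk
  have : 0 < pM n k - pM n (k + 1) := by
    rw [h3]; positivity
  linarith

/-- radius of the poles -/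
noncomputable def RM (n : ℕ) : ℝ := (1 - Real.tan (ang n) ^ 2) / 2
/-- abscissa of the poles -/
noncomputable def aM (n : ℕ) : ℝ := (1 + Real.tan (ang n) ^ 2) / 2

lemma RM_pos {n : ℕ} (hn : 2 ≤ n) : 0 < RM n := by
  have := tan_sq_lt hn
  unfold RM
  linarith

lemma aM_pos {n : ℕ} : 0 < aM n := by
  unfold aM
  positivity

lemma RM_le_aM {n : ℕ} : RM n ≤ aM n := by
  unfold RM aM
  have : 0 ≤ Real.tan (ang n) ^ 2 := by positivity
  linarith

lemma pM_tan {n : ℕ} (hn : 2 ≤ n) : ∀ k, k < 2 * n - 1 →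
    aM n ^ 2 + ((pM n k + pM n (k + 1)) / 2 - 0) ^ 2 =
    (RM n + (pM n k - pM n (k + 1)) / 2) ^ 2 := by
  intro k hk
  have hs := sin_ang_pos hn
  have hc := cos_ang_pos hn
  have h1 := sin_k_pos hn (show k ≤ 2 * n - 1 by omega)
  have h2 := sin_k_pos hn (show k + 1 ≤ 2 * n - 1 by omega)
  have e : (2 * ((k + 1 : ℕ) : ℝ) + 1) * ang n = (2 * k + 3) * ang n := by push_cast; ring
  rw [e] at h2
  have hsub := pM_sub hn hk
  have hprod : Real.tan (ang n) ^ 2 + pM n k * pM n (k + 1) =
      RM n * (pM n k - pM n (k + 1)) := by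
    rw [hsub]
    unfold pM RM
    rw [e]
    have key : Real.sin ((2 * k + 1) * ang n) * Real.sin ((2 * k + 3) * ang n) +
      Real.cos ((2 * k + 1) * ang n) * Real.cos ((2 * k + 3) * ang n) =
      Real.cos (ang n) ^ 2 - Real.sin (ang n) ^ 2 := by
      rw [← Real.cos_two_mul', show 2 * ang n = (2 * k + 3) * ang n - (2 * k + 1) * ang n by ring,
        Real.cos_sub]
      ring
    rw [Real.tan_eq_sin_div_cos]
    clear hsub
    generalize Real.sin ((2 * k + 1) * ang n) = s1 at *
    generalize Real.sin ((2 * k + 3) * ang n) = s2 at *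
    generalize Real.cos ((2 * k + 1) * ang n) = c1 at *
    generalize Real.cos ((2 * k + 3) * ang n) = c2 at *
    field_simp
    linear_combination key
  have h3 : aM n ^ 2 - RM n ^ 2 = Real.tan (ang n) ^ 2 := by
    unfold aM RM
    ring
  linear_combination h3 + hprod

/-- The maximal packing. -/
noncomputable def Mpack (n : ℕ) (hn : 2 ≤ n) : Circles (Vtx (2 * n - 1)) :=
  chain (2 * n - 1) (aM n) 0 (RM n) (pM n) (RM_pos hn) (pM_anti hn)

lemma pM_le_one {n k : ℕ} (hn : 2 ≤ n) (hk : k ≤ 2 * n - 1) : pM n k ≤ 1 := by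
  rw [← pM_zero hn]
  exact p_anti (pM_anti hn) (Nat.zero_le k) hk

lemma neg_one_le_pM {n k : ℕ} (hn : 2 ≤ n) (hk : k ≤ 2 * n - 1) : -1 ≤ pM n k := by
  rw [← pM_last hn]
  exact p_anti (pM_anti hn) hk le_rfl

lemma Mpack_horo {n : ℕ} (hn : 2 ≤ n) (v : Vtx (2 * n - 1)) (hv : (susp (2 * n - 1)).IsBoundary v) :
    (Mpack n hn).IsHorocycle v := by
  have hRM := RM_pos hn
  have haM := aM_pos (n := n)
  have hRa : aM n + RM n = 1 := by unfold aM RM; ring
  rcases v with c | i
  · constructor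
    · show RM n < 1
      linarith
    · unfold Mpack
      rw [chain_norm_inl, chain_radius_inl]
      rw [show aM n ^ 2 + (0 : ℝ) ^ 2 = aM n ^ 2 by ring, Real.sqrt_sq haM.le, hRa]
  · have h0 := pM_zero hn
    have hlast := pM_last hn
    have hi := i.2
    by_cases h1 : i.val = 0
    · unfold Circles.IsHorocycle
      unfold Mpack
      rw [chain_norm_inr, chain_radius_inr, h1, h0]
      have h2 : -1 < pM n (0 + 1) :=
        lt_of_le_of_lt (neg_one_le_pM hn (show 0 + 1 + 1 ≤ 2 * n - 1 by omega))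
          (pM_anti hn (0 + 1) (by omega))
      refine ⟨by linarith, ?_⟩
      rw [abs_of_nonneg (by linarith)]
      ring
    by_cases h2 : i.val + 1 = 2 * n - 1
    · unfold Circles.IsHorocycle
      unfold Mpack
      rw [chain_norm_inr, chain_radius_inr, h2, hlast]
      have h3 : pM n i < 1 := by
        rw [← h0]
        exact lt_of_lt_of_le (pM_anti hn 0 (by omega)) le_rfl |>.trans_le' (p_anti (pM_anti hn) (by omega) (by omega))
      refine ⟨by linarith, ?_⟩
      rw [abs_of_nonpos (by linarith)]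
      ring
    · exact absurd hv (not_boundary i (by omega) (by omega))

lemma Mpack_inDisc {n : ℕ} (hn : 2 ≤ n) : LiesInDisc (susp (2 * n - 1)) (Mpack n hn) := by
  intro v
  by_cases hv : (susp (2 * n - 1)).IsBoundary v
  · exact Or.inr ⟨hv, Mpack_horo hn v hv⟩
  · left
    rcases v with c | i
    · exact absurd (boundary_pole (by omega) c) hv
    · have hi := i.2
      have h0 : i.val ≠ 0 := by
        intro h
        apply hv
        have := boundary_top (m := 2 * n - 1) (by omega)
        convert this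
      have h1 : i.val ≠ 2 * n - 1 - 1 := by
        intro h
        apply hv
        have := boundary_bot (m := 2 * n - 1) (by omega)
        convert this
      apply Metric.closedBall_subset_ball'
      rw [dist_zero_right]
      unfold Mpack
      rw [chain_norm_inr, chain_radius_inr]
      have h2 : pM n i < 1 := by
        rw [← pM_zero hn]
        exact (p_anti (pM_anti hn) (show 0 + 1 ≤ i.val by omega) (by omega)).trans_lt
          (pM_anti hn 0 (by omega))
      have h3 : -1 < pM n (i + 1) := by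
        have := p_anti (pM_anti hn) (show i.val + 1 ≤ 2 * n - 1 - 1 by omega) (by omega)
        have h4 := pM_anti hn (2 * n - 1 - 1) (by omega)
        have h5 : 2 * n - 1 - 1 + 1 = 2 * n - 1 := by omega
        rw [h5, pM_last hn] at h4
        linarith
      have h4 := pM_anti hn i i.2
      rcases abs_cases ((pM n i + pM n (i + 1)) / 2) with ⟨h, -⟩ | ⟨h, -⟩ <;> rw [h] <;> linarith

lemma Mpack_maximal {n : ℕ} (hn : 2 ≤ n) :
    IsMaximalPacking (susp (2 * n - 1)) (sor (2 * n - 1)) (Mpack n hn) :=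
  ⟨chain_isCirclePacking _ _ (pM_tan hn) aM_pos, Mpack_inDisc hn,
    chain_univalent _ _ (pM_tan hn) aM_pos RM_le_aM, Mpack_horo hn⟩

lemma Mpack_center {n : ℕ} (hn : 2 ≤ n) :
    (Mpack n hn).center (Sum.inr ⟨n - 1, by omega⟩) = 0 := by
  unfold Mpack
  rw [chain_center_inr]
  simp only
  rw [pM_mid hn]
  simp
  rfl

end Maximal


/-! ## The competing packing -/

section Competitor

/-- shift parameter `1/2 - 1/(8 n)` -/
noncomputable def fP (n : ℕ) : ℝ := 1 / 2 - 1 / (8 * n)
/-- radius of the two poles -/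
noncomputable def RP (n : ℕ) : ℝ := 1 / 2 - 1 / (4 * n ^ 2)
/-- ordinate of the tangency point of the two poles -/
noncomputable def dP (n : ℕ) : ℝ :=
  -(RP n / 2) * (1 / (((n - 1 : ℕ) : ℝ) + fP n) + 1 / (((n - 1 + 1 : ℕ) : ℝ) + fP n))
/-- End points of the chain circles. -/
noncomputable def pP (n k : ℕ) : ℝ := dP n + RP n / (k + fP n)

lemma fP_bounds {n : ℕ} (hn : 2 ≤ n) : 7 / 16 ≤ fP n ∧ fP n < 1 / 2 := by
  have h : (2 : ℝ) ≤ n := by exact_mod_cast hn
  unfold fP
  have h1 : 1 / (8 * (n : ℝ)) ≤ 1 / 16 := by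
    apply one_div_le_one_div_of_le (by norm_num)
    linarith
  have h2 : 0 < 1 / (8 * (n : ℝ)) := by positivity
  constructor <;> linarith

lemma RP_bounds {n : ℕ} (hn : 2 ≤ n) : 7 / 16 ≤ RP n ∧ RP n < 1 / 2 := by
  have h : (2 : ℝ) ≤ n := by exact_mod_cast hn
  unfold RP
  have h1 : 1 / (4 * (n : ℝ) ^ 2) ≤ 1 / 16 := by
    apply one_div_le_one_div_of_le (by norm_num)
    nlinarith
  have h2 : 0 < 1 / (4 * (n : ℝ) ^ 2) := by positivity
  constructor <;> linarith

lemma pP_sub {n : ℕ} (hn : 2 ≤ n) (k : ℕ) :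
    pP n k - pP n (k + 1) = RP n / ((k + fP n) * (k + 1 + fP n)) := by
  have h1 := (fP_bounds hn).1
  have hk : (0 : ℝ) ≤ k := Nat.cast_nonneg k
  unfold pP
  push_cast
  have h2 : (0 : ℝ) < k + fP n := by linarith
  have h3 : (0 : ℝ) < k + 1 + fP n := by linarith
  field_simp
  ring

lemma pP_anti {n : ℕ} (hn : 2 ≤ n) : ∀ k, k < 2 * n - 1 → pP n (k + 1) < pP n k := by
  intro k _
  have h1 := (fP_bounds hn).1
  have h2 := (RP_bounds hn).1
  have hk : (0 : ℝ) ≤ k := Nat.cast_nonneg k
  have h3 := pP_sub hn k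
  have h4 : 0 < RP n / ((k + fP n) * (k + 1 + fP n)) := by
    apply div_pos (by linarith)
    apply mul_pos <;> linarith
  linarith

lemma pP_tan {n : ℕ} (hn : 2 ≤ n) : ∀ k, k < 2 * n - 1 →
    RP n ^ 2 + ((pP n k + pP n (k + 1)) / 2 - dP n) ^ 2 =
    (RP n + (pP n k - pP n (k + 1)) / 2) ^ 2 := by
  intro k _
  have h1 := (fP_bounds hn).1
  have hk : (0 : ℝ) ≤ k := Nat.cast_nonneg k
  have h3 := pP_sub hn k
  have h4 : (pP n k - dP n) * (pP n (k + 1) - dP n) = RP n * (pP n k - pP n (k + 1)) := by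
    rw [h3]
    unfold pP
    push_cast
    have h2 : (0 : ℝ) < k + fP n := by linarith
    have h3 : (0 : ℝ) < k + 1 + fP n := by linarith
    field_simp
    ring
  linear_combination h4

lemma RP_pos {n : ℕ} (hn : 2 ≤ n) : 0 < RP n := by
  linarith [(RP_bounds hn).1]

/-- The competing packing. -/
noncomputable def Ppack (n : ℕ) (hn : 2 ≤ n) : Circles (Vtx (2 * n - 1)) :=
  chain (2 * n - 1) (RP n) (dP n) (RP n) (pP n) (RP_pos hn) (pP_anti hn)

lemma Ppack_center {n : ℕ} (hn : 2 ≤ n) :
    (Ppack n hn).center (Sum.inr ⟨n - 1, by omega⟩) = 0 := by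
  unfold Ppack
  rw [chain_center_inr]
  simp only
  have : (pP n (n - 1) + pP n (n - 1 + 1)) / 2 = 0 := by
    unfold pP dP
    ring
  rw [this]
  rfl

lemma dP_bounds {n : ℕ} (hn : 3 ≤ n) : dP n < 0 ∧ dP n ^ 2 < 1 / (2 * (n : ℝ) ^ 2) ∧ -1 < dP n ∧
    dP n + RP n / fP n < 1 := by
  have hn3 : (3 : ℝ) ≤ n := by exact_mod_cast hn
  have hn0 : (0 : ℝ) < n := by linarith
  have hf := fP_bounds (show 2 ≤ n by omega)
  have hR := RP_bounds (show 2 ≤ n by omega)
  have hc : ((n - 1 : ℕ) : ℝ) = n - 1 := by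
    rw [Nat.cast_sub (by omega)]
    simp
  have hc' : ((n - 1 + 1 : ℕ) : ℝ) = n := by
    push_cast
    rw [hc]
    ring
  have hd : dP n = -(RP n / 2) * (1 / ((n : ℝ) - 1 + fP n) + 1 / ((n : ℝ) + fP n)) := by
    unfold dP
    rw [hc, hc']
  set x := 1 / ((n : ℝ) - 1 + fP n) with hx
  set y := 1 / ((n : ℝ) + fP n) with hy
  have hx1 : x ≤ (5 / 4) / n := by
    rw [hx, div_le_div_iff₀ (by linarith) hn0]
    linarith
  have hy1 : y ≤ 1 / n := by
    rw [hy, div_le_div_iff₀ (by linarith) hn0]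
    linarith
  have hx2 : 1 / n ≤ x := by
    rw [hx, div_le_div_iff₀ hn0 (by linarith)]
    linarith
  have hy2 : (6 / 7) / n ≤ y := by
    rw [hy, div_le_div_iff₀ hn0 (by linarith)]
    linarith
  have hu : 0 < 1 / (n : ℝ) := by positivity
  have e1 : (5 / 4) / (n : ℝ) = 5 / 4 * (1 / n) := by ring
  have e2 : (6 / 7) / (n : ℝ) = 6 / 7 * (1 / n) := by ring
  rw [e1] at hx1
  rw [e2] at hy2
  have hu3 : 1 / (n : ℝ) ≤ 1 / 3 := one_div_le_one_div_of_le (by norm_num) hn3
  set u := 1 / (n : ℝ) with hu'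
  have hs1 : x + y ≤ 9 / 4 * u := by linarith
  have hs2 : 13 / 7 * u ≤ x + y := by linarith
  have hdu : -dP n ≤ 9 / 16 * u := by
    rw [hd]
    nlinarith
  have hdl : 7 / 32 * (13 / 7) * u ≤ -dP n := by
    rw [hd]
    nlinarith
  have e3 : 1 / (2 * (n : ℝ) ^ 2) = u ^ 2 / 2 := by
    rw [hu']
    field_simp
  refine ⟨by nlinarith, ?_, by nlinarith, ?_⟩
  · rw [e3]
    have h1 : 0 ≤ -dP n := by nlinarith
    have h2 : (-dP n) ^ 2 ≤ (9 / 16 * u) ^ 2 := pow_le_pow_left₀ h1 hdu 2
    nlinarith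
  · have h1 : RP n / fP n < 1 + 3 / 11 * u := by
      rw [div_lt_iff₀ (by linarith)]
      have h2 : fP n = 1 / 2 - u / 8 := by
        unfold fP
        rw [hu']
        field_simp
      rw [h2]
      nlinarith
    linarith

lemma Ppack_inDisc {n : ℕ} (hn : 3 ≤ n) :
    LiesInDisc (susp (2 * n - 1)) (Ppack n (by omega)) := by
  have hn2 : 2 ≤ n := by omega
  have hn3 : (3 : ℝ) ≤ n := by exact_mod_cast hn
  obtain ⟨hd1, hd2, hd3, hd4⟩ := dP_bounds hn
  have hR := RP_bounds hn2
  have hf := fP_bounds hn2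
  intro v
  left
  apply Metric.closedBall_subset_ball'
  rw [dist_zero_right]
  rcases v with c | i
  · unfold Ppack
    rw [chain_norm_inl, chain_radius_inl]
    have h1 : √(RP n ^ 2 + dP n ^ 2) < 1 - RP n := by
      rw [Real.sqrt_lt' (by linarith)]
      have h2 : 1 / (2 * (n : ℝ) ^ 2) = 1 - 2 * RP n := by
        unfold RP
        field_simp
        ring
      rw [h2] at hd2
      nlinarith
    linarith
  · unfold Ppack
    rw [chain_norm_inr, chain_radius_inr]
    have h0 : pP n 0 = dP n + RP n / fP n := by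
      unfold pP
      simp
    have h2 : pP n i < 1 := by
      have := p_anti (pP_anti hn2) (show 0 ≤ i.val by omega) (by omega)
      rw [h0] at this
      linarith
    have h3 : -1 < pP n (i + 1) := by
      have : 0 < RP n / (((i.val + 1 : ℕ) : ℝ) + fP n) := by
        apply div_pos (by linarith)
        have : (0 : ℝ) ≤ ((i.val + 1 : ℕ) : ℝ) := Nat.cast_nonneg _
        linarith
      unfold pP
      linarith
    have h4 := pP_anti hn2 i i.2
    rcases abs_cases ((pP n i + pP n (i + 1)) / 2) with ⟨h, -⟩ | ⟨h, -⟩ <;> rw [h] <;> linarith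

/-- The real-variable inequality behind the comparison of radii. -/
lemma real_ineq (J u : ℝ) (hJ : 1 ≤ J) (hu : 0 < u) (hJu : 10 * J ^ 3 * u = 1) :
    4 * (J - u / 8) ^ 2 - 1 < (1 - u ^ 2 / 2) * (4 * J ^ 2 - 1) * (1 - 25 * J ^ 2 * u ^ 2 / 16) := by
  have h1 : J ^ 4 * u = J / 10 := by
    have : J ^ 4 * u = J * (10 * J ^ 3 * u) / 10 := by ring
    rw [this, hJu]
    ring
  have hJ2 : 1 ≤ J ^ 2 := by nlinarith
  have hu1 : u ≤ 1 / 10 := by
    have : 1 ≤ J ^ 3 := one_le_pow₀ hJ
    nlinarith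
  have h2 : (4 * J ^ 2 - 1) * (u / 2 + 25 * J ^ 2 * u / 16) + u / 16 < J := by
    have h3 : (4 * J ^ 2 - 1) * (u / 2 + 25 * J ^ 2 * u / 16) ≤ 4 * J ^ 2 * (33 / 16 * J ^ 2 * u) := by
      apply mul_le_mul
      · linarith
      · nlinarith
      · positivity
      · positivity
    have h4 : 4 * J ^ 2 * (33 / 16 * J ^ 2 * u) = 33 / 4 * (J ^ 4 * u) := by ring
    rw [h4, h1] at h3
    linarith
  have h5 : u * ((4 * J ^ 2 - 1) * (u / 2 + 25 * J ^ 2 * u / 16) + u / 16) < u * J :=
    mul_lt_mul_of_pos_left h2 hu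
  have h6 : 0 ≤ (4 * J ^ 2 - 1) * (u ^ 2 / 2 * (25 * J ^ 2 * u ^ 2 / 16)) := by
    apply mul_nonneg
    · linarith
    · positivity
  nlinarith

lemma ang_sq_le {n : ℕ} (hn : 2 ≤ n) : ang n ^ 2 ≤ 5 / 8 * (1 / (n : ℝ)) ^ 2 := by
  have h : (2 : ℝ) ≤ n := by exact_mod_cast hn
  have hpi : Real.pi ^ 2 ≤ 10 := by
    have := Real.pi_lt_d2
    have := Real.pi_pos
    nlinarith
  have e : ang n ^ 2 = Real.pi ^ 2 / 16 * (1 / (n : ℝ)) ^ 2 := by
    unfold ang
    field_simp
    ring
  rw [e]
  apply mul_le_mul_of_nonneg_right _ (by positivity)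
  linarith

lemma prod_low (J u be s1 s2 : ℝ) (hJ : 1 ≤ J) (hbe : 0 < be)
    (hangsq : be ^ 2 ≤ 5 / 8 * u ^ 2) (hb : (2 * J + 1) * be ≤ 1)
    (hs1 : (2 * J - 1) * be - ((2 * J - 1) * be) ^ 3 / 6 < s1)
    (hs2 : (2 * J + 1) * be - ((2 * J + 1) * be) ^ 3 / 6 < s2) :
    0 < s1 * s2 ∧ (4 * J ^ 2 - 1) * be ^ 2 * (1 - 25 * J ^ 2 * u ^ 2 / 16) < s1 * s2 := by
  have h4J : 0 ≤ 4 * J ^ 2 - 1 := by nlinarith
  have hb1 : 0 < (2 * J - 1) * be := mul_pos (by linarith) hbe
  have hb2 : 0 < (2 * J + 1) * be := mul_pos (by linarith) hbe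
  have hb1' : (2 * J - 1) * be ≤ 1 := by
    refine le_trans ?_ hb
    apply mul_le_mul_of_nonneg_right _ hbe.le
    linarith
  have hq1 : ((2 * J - 1) * be) ^ 2 ≤ 1 := pow_le_one₀ hb1.le hb1'
  have hq2 : ((2 * J + 1) * be) ^ 2 ≤ 1 := pow_le_one₀ hb2.le hb
  have hl1 : 0 < (2 * J - 1) * be * (1 - ((2 * J - 1) * be) ^ 2 / 4) :=
    mul_pos hb1 (by linarith)
  have hl2 : 0 < (2 * J + 1) * be * (1 - ((2 * J + 1) * be) ^ 2 / 4) :=
    mul_pos hb2 (by linarith)
  have hs1' : (2 * J - 1) * be * (1 - ((2 * J - 1) * be) ^ 2 / 4) < s1 := by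
    refine lt_of_le_of_lt ?_ hs1
    have := pow_pos hb1 3
    have e : (2 * J - 1) * be * (1 - ((2 * J - 1) * be) ^ 2 / 4) =
      (2 * J - 1) * be - ((2 * J - 1) * be) ^ 3 / 4 := by ring
    rw [e]
    linarith
  have hs2' : (2 * J + 1) * be * (1 - ((2 * J + 1) * be) ^ 2 / 4) < s2 := by
    refine lt_of_le_of_lt ?_ hs2
    have := pow_pos hb2 3
    have e : (2 * J + 1) * be * (1 - ((2 * J + 1) * be) ^ 2 / 4) =
      (2 * J + 1) * be - ((2 * J + 1) * be) ^ 3 / 4 := by ring
    rw [e]
    linarith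
  have hprod : (2 * J - 1) * be * (1 - ((2 * J - 1) * be) ^ 2 / 4) *
      ((2 * J + 1) * be * (1 - ((2 * J + 1) * be) ^ 2 / 4)) < s1 * s2 :=
    mul_lt_mul'' hs1' hs2' hl1.le hl2.le
  refine ⟨mul_pos (hl1.trans hs1') (hl2.trans hs2'), lt_of_le_of_lt ?_ hprod⟩
  have h1 : (2 * J - 1) * be * (1 - ((2 * J - 1) * be) ^ 2 / 4) *
    ((2 * J + 1) * be * (1 - ((2 * J + 1) * be) ^ 2 / 4)) = (4 * J ^ 2 - 1) * be ^ 2 *
    ((1 - ((2 * J - 1) * be) ^ 2 / 4) * (1 - ((2 * J + 1) * be) ^ 2 / 4)) := by ring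
  rw [h1]
  apply mul_le_mul_of_nonneg_left
  · have h2 : 0 ≤ ((2 * J - 1) * be) ^ 2 / 4 * (((2 * J + 1) * be) ^ 2 / 4) := by positivity
    have h3 : (8 * J ^ 2 + 2) * be ^ 2 ≤ 10 * J ^ 2 * (5 / 8 * u ^ 2) := by
      apply mul_le_mul
      · nlinarith
      · exact hangsq
      · positivity
      · positivity
    have h4 : (1 - ((2 * J - 1) * be) ^ 2 / 4) * (1 - ((2 * J + 1) * be) ^ 2 / 4) =
        1 - (8 * J ^ 2 + 2) * be ^ 2 / 4 +
          ((2 * J - 1) * be) ^ 2 / 4 * (((2 * J + 1) * be) ^ 2 / 4) := by ring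
    rw [h4]
    have h5 : 10 * J ^ 2 * (5 / 8 * u ^ 2) / 4 = 25 * J ^ 2 * u ^ 2 / 16 := by ring
    linarith
  · exact mul_nonneg h4J (by positivity)

lemma final_calc (J u be s1 s2 sb R : ℝ) (hbe : 0 < be) (hsb : 0 < sb) (hsb' : sb < be)
    (hR : R = 1 / 2 - u ^ 2 / 4) (hRpos : 0 < R) (hs12 : 0 < s1 * s2)
    (hlow : (4 * J ^ 2 - 1) * be ^ 2 * (1 - 25 * J ^ 2 * u ^ 2 / 16) < s1 * s2)
    (hpos : 0 < (4 * (J - u / 8) ^ 2 - 1) / 4)
    (hineq : 4 * (J - u / 8) ^ 2 - 1 <
      (1 - u ^ 2 / 2) * (4 * J ^ 2 - 1) * (1 - 25 * J ^ 2 * u ^ 2 / 16)) :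
    2 * sb ^ 2 / (s1 * s2) < R / ((4 * (J - u / 8) ^ 2 - 1) / 4) := by
  rw [div_lt_div_iff₀ hs12 hpos]
  have hss : sb ^ 2 < be ^ 2 := pow_lt_pow_left₀ hsb' hsb.le (by norm_num)
  calc 2 * sb ^ 2 * ((4 * (J - u / 8) ^ 2 - 1) / 4)
      < 2 * be ^ 2 * ((4 * (J - u / 8) ^ 2 - 1) / 4) := by
        apply mul_lt_mul_of_pos_right _ hpos
        linarith
    _ ≤ 2 * be ^ 2 * (((1 - u ^ 2 / 2) * (4 * J ^ 2 - 1) * (1 - 25 * J ^ 2 * u ^ 2 / 16)) / 4) := by
        apply mul_le_mul_of_nonneg_left _ (by positivity)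
        linarith
    _ = R * ((4 * J ^ 2 - 1) * be ^ 2 * (1 - 25 * J ^ 2 * u ^ 2 / 16)) := by
        rw [hR]
        ring
    _ ≤ R * (s1 * s2) := mul_le_mul_of_nonneg_left hlow.le hRpos.le

lemma ang_small {J : ℝ} {n : ℕ} (hJ : 1 ≤ J) (hnJ : (n : ℝ) = 10 * J ^ 3) (hn2 : 2 ≤ n) :
    (2 * J + 1) * ang n ≤ 1 := by
  have hang := ang_pos (show 1 ≤ n by omega)
  have hJJ : J ≤ J ^ 3 := le_self_pow₀ hJ (by norm_num)
  have h1 : (2 * J + 1) * ang n ≤ 3 * J * ang n :=
    mul_le_mul_of_nonneg_right (by linarith) hang.le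
  have h2 : 4 * (n : ℝ) * ang n = Real.pi := ang_mul (by omega)
  rw [hnJ] at h2
  have h3 : 40 * (J * ang n) ≤ Real.pi := by
    rw [← h2]
    nlinarith
  have := Real.pi_lt_d2
  nlinarith

lemma main_ineq (j : ℕ) (hj : 1 ≤ j) :
    pM (10 * j ^ 3) (j - 1) - pM (10 * j ^ 3) (j - 1 + 1) <
    pP (10 * j ^ 3) (j - 1) - pP (10 * j ^ 3) (j - 1 + 1) := by
  have hj3 : 1 ≤ j ^ 3 := Nat.one_le_pow _ _ hj
  have hjj : j ≤ j ^ 3 := Nat.le_self_pow (by norm_num) j
  obtain ⟨n, hn⟩ : ∃ n, n = 10 * j ^ 3 := ⟨_, rfl⟩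
  rw [← hn]
  have hn2 : 2 ≤ n := by omega
  rw [pM_sub hn2 (by omega), pP_sub hn2]
  have hJ : (1 : ℝ) ≤ j := by exact_mod_cast hj
  have hnJ : (n : ℝ) = 10 * (j : ℝ) ^ 3 := by
    rw [hn]
    push_cast
    ring
  have hc : ((j - 1 : ℕ) : ℝ) = j - 1 := by
    rw [Nat.cast_sub hj]
    simp
  rw [hc]
  set J : ℝ := (j : ℝ) with hJdef
  have hnpos : (0 : ℝ) < n := by rw [hnJ]; positivity
  set u := 1 / (n : ℝ) with hu
  have hupos : 0 < u := by positivity
  have hJu : 10 * J ^ 3 * u = 1 := by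
    rw [← hnJ, hu]
    field_simp
  have hang := ang_pos (show 1 ≤ n by omega)
  have hangsq := ang_sq_le hn2
  rw [← hu] at hangsq
  have hb1 : 0 < (2 * J - 1) * ang n := mul_pos (by linarith) hang
  have hb2 : 0 < (2 * J + 1) * ang n := mul_pos (by linarith) hang
  have e1 : 2 * (J - 1) + 1 = 2 * J - 1 := by ring
  have e2 : 2 * (J - 1) + 3 = 2 * J + 1 := by ring
  rw [e1, e2]
  obtain ⟨hs12, hlow⟩ := prod_low J u (ang n) _ _ hJ hang hangsq (ang_small hJ hnJ hn2)
    (Real.sin_gt_sub_cube hb1) (Real.sin_gt_sub_cube hb2)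
  have hf := fP_bounds hn2
  have hR := RP_bounds hn2
  have hfu : fP n = 1 / 2 - u / 8 := by
    unfold fP
    rw [hu]
    field_simp
  have hRu : RP n = 1 / 2 - u ^ 2 / 4 := by
    unfold RP
    rw [hu]
    field_simp
  have hden : (J - 1 + fP n) * (J - 1 + 1 + fP n) = (4 * (J - u / 8) ^ 2 - 1) / 4 := by
    rw [hfu]
    ring
  have hpos : 0 < (J - 1 + fP n) * (J - 1 + 1 + fP n) := by
    apply mul_pos <;> linarith
  rw [hden] at hpos ⊢
  exact final_calc J u (ang n) _ _ _ _ hang (sin_ang_pos hn2) (Real.sin_lt hang) hRu (RP_pos hn2)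
    hs12 hlow hpos (real_ineq J u hJ hupos hJu)

lemma small_center (j : ℕ) (hj : 1 ≤ j) :
    |(pM (10 * j ^ 3) (j - 1) + pM (10 * j ^ 3) (j - 1 + 1)) / 2| ≤ 2 / j := by
  have hj3 : 1 ≤ j ^ 3 := Nat.one_le_pow _ _ hj
  have hjj : j ≤ j ^ 3 := Nat.le_self_pow (by norm_num) j
  obtain ⟨n, hn⟩ : ∃ n, n = 10 * j ^ 3 := ⟨_, rfl⟩
  rw [← hn]
  have hn2 : 2 ≤ n := by omega
  have hJ : (1 : ℝ) ≤ j := by exact_mod_cast hj
  have hnJ : (n : ℝ) = 10 * (j : ℝ) ^ 3 := by
    rw [hn]
    push_cast
    ring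
  have hc : ((j - 1 : ℕ) : ℝ) = j - 1 := by
    rw [Nat.cast_sub hj]
    simp
  have h1 : pM n (j - 1 + 1) < pM n (j - 1) := pM_anti hn2 _ (by omega)
  have h2 : 0 < pM n (j - 1 + 1) := by
    have h3 := p_anti (pM_anti hn2) (show j - 1 + 1 ≤ n - 1 by omega) (by omega)
    have h4 := pM_mid hn2
    have h5 := pM_anti hn2 (n - 1) (by omega)
    linarith
  rw [abs_of_nonneg (by linarith)]
  have h6 : pM n (j - 1) ≤ 2 / j := by
    unfold pM
    rw [hc]
    have e1 : 2 * ((j : ℝ) - 1) + 1 = 2 * j - 1 := by ring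
    rw [e1]
    set J : ℝ := (j : ℝ) with hJdef
    have hJ3 : 1 ≤ J ^ 3 := one_le_pow₀ hJ
    have hJJ : J ≤ J ^ 3 := le_self_pow₀ hJ (by norm_num)
    have hang := ang_pos (show 1 ≤ n by omega)
    have hang1 : (2 * J - 1) * ang n ≤ 1 := by
      have h1 : (2 * J - 1) * ang n ≤ 2 * J * ang n := by nlinarith
      have h2 : 4 * (n : ℝ) * ang n = Real.pi := ang_mul (by omega)
      rw [hnJ] at h2
      have h3 : 40 * (J * ang n) ≤ Real.pi := by
        rw [← h2]
        nlinarith
      have := Real.pi_lt_d2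
      nlinarith
    have hb1 : 0 < (2 * J - 1) * ang n := by
      apply mul_pos _ hang
      linarith
    have hs1 := Real.sin_gt_sub_cube hb1
    have hs := sin_ang_pos hn2
    have hcos := cos_ang_pos hn2
    have hslt : Real.sin (ang n) < ang n := Real.sin_lt hang
    have hcle : Real.cos ((2 * J - 1) * ang n) ≤ Real.cos (ang n) := by
      apply Real.cos_le_cos_of_nonneg_of_le_pi hang.le
      · linarith [Real.pi_gt_three]
      · nlinarith
    have hs1' : (2 * J - 1) * ang n * (3 / 4) ≤ Real.sin ((2 * J - 1) * ang n) := by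
      have : ((2 * J - 1) * ang n) ^ 3 ≤ (2 * J - 1) * ang n := by
        have := pow_le_pow_left₀ hb1.le hang1 2
        nlinarith
      linarith
    have hs1pos : 0 < Real.sin ((2 * J - 1) * ang n) := lt_of_lt_of_le (by positivity) hs1'
    rw [Real.tan_eq_sin_div_cos, div_mul_div_comm, div_le_div_iff₀ (by positivity) (by linarith)]
    have h7 : Real.sin (ang n) * Real.cos ((2 * J - 1) * ang n) ≤ ang n * Real.cos (ang n) := by
      calc Real.sin (ang n) * Real.cos ((2 * J - 1) * ang n)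
          ≤ Real.sin (ang n) * Real.cos (ang n) := mul_le_mul_of_nonneg_left hcle hs.le
        _ ≤ ang n * Real.cos (ang n) := mul_le_mul_of_nonneg_right hslt.le hcos.le
    calc Real.sin (ang n) * Real.cos ((2 * J - 1) * ang n) * J
        ≤ ang n * Real.cos (ang n) * J := mul_le_mul_of_nonneg_right h7 (by linarith)
      _ ≤ 2 * (Real.cos (ang n) * ((2 * J - 1) * ang n * (3 / 4))) := by
          have h8 : 0 ≤ ang n * Real.cos (ang n) := by positivity
          nlinarith
      _ ≤ 2 * (Real.cos (ang n) * Real.sin ((2 * J - 1) * ang n)) := by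
          apply mul_le_mul_of_nonneg_left _ (by norm_num)
          exact mul_le_mul_of_nonneg_left hs1' hcos.le
  linarith

end Competitor

/-- The construction: for every `C > 0` there is a counterexample to the discrete
Dieudonne-Schwarz lemma with constant `C`. -/
theorem exists_counterexample : ∀ C : ℝ, 0 < C →
    ∃ (V : Type) (_ : Fintype V) (_ : DecidableEq V) (K : Complex2 V) (o : K.Orientation)
      (v₀ : V) (M P : Circles V),
      K.IsClosedDisc ∧ ¬ K.IsBoundary v₀ ∧
      IsMaximalPacking K o M ∧ M.center v₀ = 0 ∧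
      IsCirclePacking K o P ∧ LiesInDisc K P ∧ P.IsUnivalent ∧ P.center v₀ = 0 ∧
      ∃ v : V, ‖M.center v‖ ≤ C ∧ 1 < P.radius v / M.radius v := by
  intro C hC
  obtain ⟨j, hj⟩ := exists_nat_gt (2 / C)
  have hj0 : 1 ≤ j := by
    by_contra h
    have : j = 0 := by omega
    rw [this] at hj
    have : 0 < 2 / C := by positivity
    simp at hj
    linarith
  have hj3 : 1 ≤ j ^ 3 := Nat.one_le_pow _ _ hj0
  have hn : 2 ≤ 10 * j ^ 3 := by omega
  have hjj : j ≤ j ^ 3 := Nat.le_self_pow (by norm_num) j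
  refine ⟨Vtx (2 * (10 * j ^ 3) - 1), inferInstance, inferInstance, susp _, sor _,
    Sum.inr ⟨10 * j ^ 3 - 1, by omega⟩, Mpack _ hn, Ppack _ hn, susp_isClosedDisc _ (by omega),
    not_boundary _ (by simp; omega) (by simp; omega), Mpack_maximal hn, Mpack_center hn,
    chain_isCirclePacking _ _ (pP_tan hn) (RP_pos hn), Ppack_inDisc (by omega),
    chain_univalent _ _ (pP_tan hn) (RP_pos hn) le_rfl, Ppack_center hn,
    Sum.inr ⟨j - 1, by omega⟩, ?_, ?_⟩
  · unfold Mpack
    rw [chain_norm_inr]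
    refine (small_center j hj0).trans ?_
    have hjpos : (0 : ℝ) < j := by exact_mod_cast hj0
    rw [div_le_iff₀ hjpos]
    rw [div_lt_iff₀ hC] at hj
    linarith
  · rw [one_lt_div ((Mpack _ hn).radius_pos _)]
    unfold Mpack Ppack
    rw [chain_radius_inr, chain_radius_inr]
    have := main_ineq j hj0
    simp only
    linarith

end Pool.Agent.Lib.MP_df084a_an
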