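import Mathlib

/-!
# Combinatorial closed discs and their circle packings: definitions
-/

open scoped ComplexConjugate

namespace Pool.Agent.Lib.MP_df084a_an

/-! ## Definitions -/

/-- A (finite, when `V` is finite) abstract simplicial complex of dimension at most two with vertex
set `V`: a family of nonempty finite subsets of `V` (the simplices), closed under passing to
nonempty subsets, containing all singletons and with all members of size at most three. -/
structure Complex2 (V : Type) where
  /-- the set of simplices -/
  simplices : Set (Finset V)
  nonempty_of_mem : ∀ s ∈ simplices, s.Nonempty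
  mem_of_subset : ∀ s ∈ simplices, ∀ t : Finset V, t ⊆ s → t.Nonempty → t ∈ simplices
  singleton_mem : ∀ v : V, {v} ∈ simplices
  card_le_three : ∀ s ∈ simplices, s.card ≤ 3

/-- The geometric realization of `K`: all families of barycentric coordinates
`x : V → [0,1]` with sum `1` which vanish off some simplex of `K`. -/
def Complex2.realization {V : Type} [Fintype V] (K : Complex2 V) : Set (V → ℝ) :=
  {x | (∀ v, 0 ≤ x v) ∧ ∑ v, x v = 1 ∧ ∃ s ∈ K.simplices, ∀ v, x v ≠ 0 → v ∈ s}

/-- `K` is a combinatorial closed disc: its geometric realization is homeomorphic to the closed
unit disc. -/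
def Complex2.IsClosedDisc {V : Type} [Fintype V] (K : Complex2 V) : Prop :=
  Nonempty (K.realization ≃ₜ Metric.closedBall (0 : ℂ) 1)

/-- `v` is a boundary vertex: it lies on an edge `{u, v}` contained in exactly one triangle. -/
def Complex2.IsBoundary {V : Type} [DecidableEq V] (K : Complex2 V) (v : V) : Prop :=
  ∃ u, u ≠ v ∧ {u, v} ∈ K.simplices ∧ ∃! w, w ≠ u ∧ w ≠ v ∧ {u, v, w} ∈ K.simplices

/-- An orientation of `K`: `pos u v w` says that the triangle `u v w`, read in this cyclic order,
is positively oriented.  Every triangle gets exactly one of its two cyclic orders, and the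
orientations of two triangles sharing an edge are coherent (they run through the common edge in opposite
directions). -/
structure Complex2.Orientation {V : Type} [DecidableEq V] (K : Complex2 V) where
  /-- the positively oriented triangles -/
  pos : V → V → V → Prop
  is_triangle : ∀ u v w, pos u v w → u ≠ v ∧ v ≠ w ∧ w ≠ u ∧ {u, v, w} ∈ K.simplices
  cyclic : ∀ u v w, pos u v w → pos v w u
  total : ∀ u v w, u ≠ v → v ≠ w → w ≠ u → {u, v, w} ∈ K.simplices → pos u v w ∨ pos v u w
  asymm : ∀ u v w, pos u v w → ¬ pos v u w
  coherent : ∀ u v w w', pos u v w → pos u v w' → w = w'

/-- A configuration of circles in the plane indexed by `V` (euclidean centres and radii). -/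
structure Circles (V : Type) where
  /-- euclidean centre of the circle of `v` -/
  center : V → ℂ
  /-- euclidean radius of the circle of `v` -/
  radius : V → ℝ
  radius_pos : ∀ v, 0 < radius v

/-- `P` is a circle packing for the oriented complex `K`: circles of adjacent vertices are
externally tangent, and the centres of every positively oriented triangle form a positively oriented
(counterclockwise) triangle in the plane.  (Branching is allowed.) -/
def IsCirclePacking {V : Type} [DecidableEq V] (K : Complex2 V) (o : K.Orientation)
    (P : Circles V) : Prop :=
  (∀ u v, u ≠ v → {u, v} ∈ K.simplices → dist (P.center u) (P.center v) = P.radius u + P.radius v) ∧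
  (∀ u v w, o.pos u v w →
    0 < (conj (P.center v - P.center u) * (P.center w - P.center u)).im)

/-- The circle of `v` is a horocycle of the unit disc: it is internally tangent to the unit
circle. -/
def Circles.IsHorocycle {V : Type} (P : Circles V) (v : V) : Prop :=
  P.radius v < 1 ∧ ‖P.center v‖ + P.radius v = 1

/-- `P` lies in the unit disc: every circle bounds a closed disc contained in the open unit disc,
except that circles of boundary vertices may be horocycles. -/
def LiesInDisc {V : Type} [DecidableEq V] (K : Complex2 V) (P : Circles V) : Prop :=
  ∀ v, Metric.closedBall (P.center v) (P.radius v) ⊆ Metric.ball 0 1 ∨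
    (K.IsBoundary v ∧ P.IsHorocycle v)

/-- `P` is univalent: distinct circles bound discs with disjoint interiors. -/
def Circles.IsUnivalent {V : Type} (P : Circles V) : Prop :=
  ∀ u v, u ≠ v → Disjoint (Metric.ball (P.center u) (P.radius u))
    (Metric.ball (P.center v) (P.radius v))

/-- `M` is a maximal packing for `K`: a univalent circle packing for `K` in the unit disc all of
whose boundary circles are horocycles. -/
def IsMaximalPacking {V : Type} [DecidableEq V] (K : Complex2 V) (o : K.Orientation)
    (M : Circles V) : Prop :=
  IsCirclePacking K o M ∧ LiesInDisc K M ∧ M.IsUnivalent ∧ ∀ v, K.IsBoundary v → M.IsHorocycle v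

end Pool.Agent.Lib.MP_df084a_an
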